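import Mathlib

/-!
# MP_95ea62_an: uniform comparison of Gagliardo seminorms of different orders
-/

open MeasureTheory
open scoped ENNReal

namespace Pool.Agent.Results.MP_95ea62_an.UniformComparison

/-- The Gagliardo seminorm `[f]_{Ẇ^{s,p}(ℝ^N)}`, with values in `[0, ∞]`. -/
noncomputable def gagliardo (N : ℕ) (p s : ℝ) (f : EuclideanSpace ℝ (Fin N) → ℂ) : ℝ≥0∞ :=
  (∫⁻ x, ∫⁻ y, ENNReal.ofReal (‖f x - f y‖ ^ p / ‖x - y‖ ^ (N + s * p))) ^ (1 / p)

section geom

/-- For a nondecreasing sequence `b`, `(1 - q) ∑ q^k b_k = ∑ q^j (b_j - b_{j-1})`. -/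
lemma geom_eq (b : ℕ → ℝ≥0∞) (hb : Monotone b) {q : ℝ≥0∞} (hq : q < 1) :
    (1 - q) * ∑' k, q ^ k * b k =
      ∑' j, q ^ j * (if j = 0 then b 0 else b j - b (j - 1)) := by
  obtain ⟨d, hd⟩ : ∃ d : ℕ → ℝ≥0∞, d = fun j => if j = 0 then b 0 else b j - b (j - 1) := ⟨_, rfl⟩
  have hbd : ∀ k, b k = ∑ j ∈ Finset.range (k + 1), d j := by
    intro k
    induction k with
    | zero => simp [hd]
    | succ k ih =>
      rw [Finset.sum_range_succ, ← ih]
      simp only [hd, Nat.succ_ne_zero, if_false, Nat.add_sub_cancel]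
      exact (add_tsub_cancel_of_le (hb (Nat.le_succ k))).symm
  have h1 : ∑' k, q ^ k * b k = ∑' j, ∑' k, if j ≤ k then q ^ k * d j else 0 := by
    refine Eq.trans ?_ (ENNReal.tsum_comm (f := fun k j => if j ≤ k then q ^ k * d j else 0))
    refine tsum_congr fun k => ?_
    have h5 : ∑' j, (if j ≤ k then q ^ k * d j else 0) =
        ∑ j ∈ Finset.range (k + 1), (if j ≤ k then q ^ k * d j else 0) := by
      refine tsum_eq_sum fun j hj => ?_
      have hjk : ¬ j ≤ k := fun h => hj (Finset.mem_range.mpr (Nat.lt_succ_iff.mpr h))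
      simp [hjk]
    rw [h5, hbd k, Finset.mul_sum]
    refine Finset.sum_congr rfl fun j hj => ?_
    have hjk : j ≤ k := Nat.lt_succ_iff.mp (Finset.mem_range.mp hj)
    simp [hjk]
  have h2 : ∀ j, (∑' k, if j ≤ k then q ^ k * d j else 0) = q ^ j * (1 - q)⁻¹ * d j := by
    intro j
    have h6 := Summable.sum_add_tsum_nat_add' (f := fun k => if j ≤ k then q ^ k * d j else 0) (k := j) ENNReal.summable
    rw [← h6]
    have h0 : ∑ k ∈ Finset.range j, (if j ≤ k then q ^ k * d j else 0) = 0 := by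
      refine Finset.sum_eq_zero fun k hk => ?_
      have hjk : ¬ j ≤ k := Nat.not_le.mpr (Finset.mem_range.mp hk)
      simp [hjk]
    rw [h0, zero_add]
    simp only [Nat.le_add_left, if_true]
    rw [ENNReal.tsum_mul_right]
    congr 1
    simp only [pow_add]
    rw [ENNReal.tsum_mul_right, ENNReal.tsum_geometric, mul_comm]
  rw [h1]
  simp only [h2]
  rw [← ENNReal.tsum_mul_left]
  refine tsum_congr fun j => ?_
  have h3 : (1 - q) * (1 - q)⁻¹ = 1 :=
    ENNReal.mul_inv_cancel (tsub_pos_of_lt hq).ne' (ne_top_of_le_ne_top ENNReal.one_ne_top tsub_le_self)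
  calc (1 - q) * (q ^ j * (1 - q)⁻¹ * d j) = ((1 - q) * (1 - q)⁻¹) * (q ^ j * d j) := by ring
    _ = _ := by rw [h3, one_mul, hd]

lemma geom_mono (b c : ℕ → ℝ≥0∞) (hb : Monotone b) (hbc : ∀ k, b k ≤ c k) {q q' : ℝ≥0∞}
    (hqq : q ≤ q') (hq : q' < 1) :
    (1 - q) * ∑' k, q ^ k * b k ≤ (1 - q') * ∑' k, q' ^ k * c k := by
  calc (1 - q) * ∑' k, q ^ k * b k ≤ (1 - q') * ∑' k, q' ^ k * b k := by
        rw [geom_eq b hb (hqq.trans_lt hq), geom_eq b hb hq]
        gcongr
    _ ≤ _ := by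
        gcongr with k
        exact hbc k

end geom

section shells

variable {N : ℕ}

/-- the weight `|h|^{-N-sp}` -/
noncomputable def wt (N : ℕ) (p s : ℝ) (h : EuclideanSpace ℝ (Fin N)) : ℝ≥0∞ :=
  ENNReal.ofReal (‖h‖ ^ (-(N + s * p)))

lemma measurable_wt (p s : ℝ) : Measurable (wt N p s) := by
  unfold wt
  exact ENNReal.measurable_ofReal.comp (measurable_norm.pow_const _)

/-- the dyadic shell -/
def shell (N : ℕ) (k : ℕ) : Set (EuclideanSpace ℝ (Fin N)) :=
  {h | (1 / 2 : ℝ) ^ (k + 1) < ‖h‖ ∧ ‖h‖ ≤ (1 / 2 : ℝ) ^ k}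

lemma measurableSet_shell (k : ℕ) : MeasurableSet (shell N k) :=
  (measurableSet_lt measurable_const measurable_norm).inter
    (measurableSet_le measurable_norm measurable_const)

lemma iUnion_shell : (⋃ k, shell N k) = {h : EuclideanSpace ℝ (Fin N) | 0 < ‖h‖ ∧ ‖h‖ ≤ 1} := by
  ext h
  simp only [Set.mem_iUnion, shell, Set.mem_ofPred_eq]
  constructor
  · rintro ⟨k, h1, h2⟩
    exact ⟨lt_trans (by positivity) h1, h2.trans (pow_le_one₀ (by norm_num) (by norm_num))⟩
  · rintro ⟨h1, h2⟩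
    exact exists_nat_pow_near_of_lt_one h1 h2 (by norm_num) (by norm_num)

lemma disjoint_shell : Pairwise (Function.onFun Disjoint (shell N)) := by
  have key : ∀ i j, i < j → Disjoint (shell N i) (shell N j) := by
    intro i j hij
    rw [Set.disjoint_left]
    rintro h ⟨h1, -⟩ ⟨-, h2⟩
    have : (1 / 2 : ℝ) ^ j ≤ (1 / 2 : ℝ) ^ (i + 1) :=
      pow_le_pow_of_le_one (by norm_num) (by norm_num) hij
    linarith
  intro i j hij
  rcases lt_or_gt_of_ne hij with h | h
  · exact key i j h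
  · exact (key j i h).symm

lemma mem_shell_iff (k : ℕ) (u : EuclideanSpace ℝ (Fin N)) :
    ((1 / 2 : ℝ) ^ k) • u ∈ shell N k ↔ u ∈ shell N 0 := by
  have hpos : (0 : ℝ) < (1 / 2) ^ k := by positivity
  simp only [shell, Set.mem_ofPred_eq, norm_smul, Real.norm_of_nonneg hpos.le, pow_zero, zero_add,
    pow_one]
  rw [pow_succ, mul_lt_mul_iff_right₀ hpos]
  constructor
  · rintro ⟨h1, h2⟩
    refine ⟨h1, ?_⟩
    exact le_of_mul_le_mul_left (by simpa using h2) hpos
  · rintro ⟨h1, h2⟩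
    refine ⟨h1, ?_⟩
    calc (1 / 2 : ℝ) ^ k * ‖u‖ ≤ (1 / 2 : ℝ) ^ k * 1 := by gcongr
      _ = _ := mul_one _

/-- scaling the `k`-th shell to the `0`-th one -/
lemma shell_integral (Φ : EuclideanSpace ℝ (Fin N) → ℝ≥0∞) (hΦ : Measurable Φ) (p s : ℝ) (k : ℕ) :
    ∫⁻ h in shell N k, Φ h * wt N p s h =
      ENNReal.ofReal (2 ^ (s * p)) ^ k *
        ∫⁻ u in shell N 0, Φ (((1 / 2 : ℝ) ^ k) • u) * wt N p s u := by
  have hpos : (0 : ℝ) < (1 / 2) ^ k := by positivity
  set r : ℝ := (1 / 2) ^ k with hr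
  set F : EuclideanSpace ℝ (Fin N) → ℝ≥0∞ := (shell N k).indicator fun h => Φ h * wt N p s h with hF
  have hFm : Measurable F := (hΦ.mul (measurable_wt p s)).indicator (measurableSet_shell k)
  have hmap := Measure.map_addHaar_smul (volume : Measure (EuclideanSpace ℝ (Fin N))) hpos.ne'
  have h1 : ∫⁻ h, F h ∂(Measure.map (r • ·) volume) = ∫⁻ u, F (r • u) :=
    lintegral_map hFm (measurable_const_smul r)
  rw [hmap, lintegral_smul_measure, finrank_euclideanSpace, Fintype.card_fin] at h1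
  have h2 : ∫⁻ h in shell N k, Φ h * wt N p s h = ∫⁻ h, F h :=
    (lintegral_indicator (measurableSet_shell k) _).symm
  have habs : |((r ^ N)⁻¹ : ℝ)| = (2 : ℝ) ^ (N * k) := by
    rw [abs_of_pos (by positivity), hr, ← pow_mul, ← inv_pow, one_div, inv_inv, mul_comm]
  rw [habs, smul_eq_mul] at h1
  have hne : ENNReal.ofReal ((2 : ℝ) ^ (N * k)) ≠ 0 := by
    rw [Ne, ENNReal.ofReal_eq_zero, not_le]; positivity
  have h3 : ∫⁻ h, F h = (ENNReal.ofReal ((2 : ℝ) ^ (N * k)))⁻¹ * ∫⁻ u, F (r • u) := by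
    rw [← h1, ← mul_assoc, ENNReal.inv_mul_cancel hne ENNReal.ofReal_ne_top, one_mul]
  have h4 : ∫⁻ u, F (r • u) = ENNReal.ofReal ((2 : ℝ) ^ ((N + s * p) * k)) *
      ∫⁻ u in shell N 0, Φ (r • u) * wt N p s u := by
    rw [← lintegral_indicator (measurableSet_shell 0), ← lintegral_const_mul]
    · refine lintegral_congr fun u => ?_
      by_cases hu : u ∈ shell N 0
      · rw [Set.indicator_of_mem hu, hF, Set.indicator_of_mem ((mem_shell_iff k u).mpr hu)]
        have hw : wt N p s (r • u) = ENNReal.ofReal ((2 : ℝ) ^ ((N + s * p) * k)) * wt N p s u := by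
          unfold wt
          rw [← ENNReal.ofReal_mul (by positivity), norm_smul, Real.norm_of_nonneg hpos.le,
            Real.mul_rpow hpos.le (norm_nonneg _)]
          congr 2
          rw [hr, ← Real.rpow_natCast, ← Real.rpow_mul (by norm_num), one_div,
            Real.inv_rpow (by norm_num), ← Real.rpow_neg (by norm_num)]
          congr 1
          ring
        rw [hw]
        ring
      · rw [Set.indicator_of_notMem hu, hF,
          Set.indicator_of_notMem (fun h => hu ((mem_shell_iff k u).mp h)), mul_zero]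
    · exact ((hΦ.comp (measurable_const_smul r)).mul (measurable_wt p s)).indicator
        (measurableSet_shell 0)
  rw [h2, h3, h4, ← mul_assoc]
  congr 1
  rw [← ENNReal.ofReal_inv_of_pos (by positivity), ← ENNReal.ofReal_mul (by positivity),
    ← ENNReal.ofReal_pow (by positivity)]
  congr 1
  rw [← Real.rpow_natCast, ← Real.rpow_natCast, ← Real.rpow_neg (by norm_num),
    ← Real.rpow_add (by norm_num), ← Real.rpow_mul (by norm_num)]
  congr 1
  push_cast
  ring

/-- The comparison on the unit ball. -/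
lemma ball_comparison (Φ : EuclideanSpace ℝ (Fin N) → ℝ≥0∞) (hΦ : Measurable Φ) {p s t : ℝ}
    (hp : 0 < p) (hst : s < t) (ht : t < 1)
    (h2 : ∀ h, Φ ((2 : ℝ) • h) ≤ ENNReal.ofReal (2 ^ p) * Φ h) :
    (1 - ENNReal.ofReal (2 ^ ((s - 1) * p))) *
        ∫⁻ h in {h | 0 < ‖h‖ ∧ ‖h‖ ≤ 1}, Φ h * wt N p s h ≤
      (1 - ENNReal.ofReal (2 ^ ((t - 1) * p))) *
        ∫⁻ h in {h | 0 < ‖h‖ ∧ ‖h‖ ≤ 1}, Φ h * wt N p t h := by
  have hdec : ∀ s' : ℝ, ∫⁻ h in {h | 0 < ‖h‖ ∧ ‖h‖ ≤ 1}, Φ h * wt N p s' h =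
      ∑' k, ENNReal.ofReal (2 ^ ((s' - 1) * p)) ^ k * (ENNReal.ofReal (2 ^ p) ^ k *
        ∫⁻ u in shell N 0, Φ (((1 / 2 : ℝ) ^ k) • u) * wt N p s' u) := by
    intro s'
    rw [← iUnion_shell, lintegral_iUnion measurableSet_shell disjoint_shell]
    refine tsum_congr fun k => ?_
    rw [shell_integral Φ hΦ, ← mul_assoc, ← mul_pow, ← ENNReal.ofReal_mul (by positivity),
      ← Real.rpow_add (by norm_num)]
    congr 4
    ring
  rw [hdec s, hdec t]
  refine geom_mono _ _ ?_ ?_ ?_ ?_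
  · refine monotone_nat_of_le_succ fun k => ?_
    have hstep : ∀ u, Φ (((1 / 2 : ℝ) ^ k) • u) ≤
        ENNReal.ofReal (2 ^ p) * Φ (((1 / 2 : ℝ) ^ (k + 1)) • u) := by
      intro u
      refine le_trans (le_of_eq ?_) (h2 _)
      rw [smul_smul]
      congr 2
      rw [pow_succ]
      ring
    rw [pow_succ, mul_assoc]
    gcongr
    rw [← lintegral_const_mul]
    · refine lintegral_mono fun u => ?_
      rw [← mul_assoc]
      gcongr
      exact hstep u
    · exact (hΦ.comp (measurable_const_smul _)).mul (measurable_wt p s)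
  · intro k
    refine mul_le_mul_of_nonneg_left ?_ bot_le
    refine setLIntegral_mono' (measurableSet_shell 0) fun u hu => ?_
    gcongr
    unfold wt
    refine ENNReal.ofReal_le_ofReal ?_
    have h0 : 0 < ‖u‖ := lt_trans (by positivity) hu.1
    have h1 : ‖u‖ ≤ 1 := by simpa using hu.2
    refine Real.rpow_le_rpow_of_exponent_ge h0 h1 ?_
    nlinarith
  · refine ENNReal.ofReal_le_ofReal ?_
    refine Real.rpow_le_rpow_of_exponent_le (by norm_num) ?_
    nlinarith
  · rw [ENNReal.ofReal_lt_one]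
    refine Real.rpow_lt_one_of_one_lt_of_neg (by norm_num) ?_
    nlinarith

end shells

section main

variable {N : ℕ}

/-- the `p`-th power of the `L^p` modulus of continuity -/
noncomputable def Phi (p : ℝ) (f : EuclideanSpace ℝ (Fin N) → ℂ) (h : EuclideanSpace ℝ (Fin N)) :
    ℝ≥0∞ :=
  ∫⁻ x, ENNReal.ofReal (‖f (x + h) - f x‖ ^ p)

lemma Phi_eq {p : ℝ} (hp : 1 ≤ p) (f : EuclideanSpace ℝ (Fin N) → ℂ)
    (h : EuclideanSpace ℝ (Fin N)) :
    Phi p f h = (eLpNorm (fun x => f (x + h) - f x) (ENNReal.ofReal p) volume) ^ p := by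
  have hp0 : 0 < p := by linarith
  rw [eLpNorm_eq_lintegral_rpow_enorm_toReal (by simpa using hp0) ENNReal.ofReal_ne_top,
    ENNReal.toReal_ofReal hp0.le, ← ENNReal.rpow_mul, one_div, inv_mul_cancel₀ hp0.ne',
    ENNReal.rpow_one]
  unfold Phi
  refine lintegral_congr fun x => ?_
  rw [← ENNReal.ofReal_rpow_of_nonneg (norm_nonneg _) hp0.le, ofReal_norm]

lemma measurable_Phi (p : ℝ) {f : EuclideanSpace ℝ (Fin N) → ℂ} (hf : Measurable f) :
    Measurable (Phi p f) := by
  unfold Phi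
  have : Measurable fun z : EuclideanSpace ℝ (Fin N) × EuclideanSpace ℝ (Fin N) =>
      ENNReal.ofReal (‖f (z.2 + z.1) - f z.2‖ ^ p) := by
    refine ENNReal.measurable_ofReal.comp (Measurable.pow_const (Measurable.norm ?_) _)
    exact (hf.comp (measurable_snd.add measurable_fst)).sub (hf.comp measurable_snd)
  exact this.lintegral_prod_right'

lemma eLpNorm_shift (q : ℝ≥0∞) {g : EuclideanSpace ℝ (Fin N) → ℂ} (hg : Measurable g)
    (h : EuclideanSpace ℝ (Fin N)) :
    eLpNorm (fun x => g (x + h)) q volume = eLpNorm g q volume :=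
  eLpNorm_comp_measurePreserving hg.aestronglyMeasurable (measurePreserving_add_right volume h)

lemma Phi_two {p : ℝ} (hp : 1 ≤ p) {f : EuclideanSpace ℝ (Fin N) → ℂ} (hf : Measurable f)
    (h : EuclideanSpace ℝ (Fin N)) :
    Phi p f ((2 : ℝ) • h) ≤ ENNReal.ofReal (2 ^ p) * Phi p f h := by
  have hp0 : 0 < p := by linarith
  rw [Phi_eq hp, Phi_eq hp]
  set D : EuclideanSpace ℝ (Fin N) → ℂ := fun x => f (x + h) - f x with hD
  have hDm : Measurable D := (hf.comp (measurable_id.add_const h)).sub hf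
  have h1 : (fun x => f (x + (2 : ℝ) • h) - f x) = (fun x => D (x + h)) + D := by
    funext x
    simp only [hD, Pi.add_apply, two_smul]
    rw [← add_assoc]
    ring
  have h2 : eLpNorm (fun x => f (x + (2 : ℝ) • h) - f x) (ENNReal.ofReal p) volume ≤
      2 * eLpNorm D (ENNReal.ofReal p) volume := by
    rw [h1]
    have hm : Measurable (fun x => D (x + h)) := hDm.comp (measurable_id.add_const h)
    refine (eLpNorm_add_le hm.aestronglyMeasurable
      hDm.aestronglyMeasurable (by simpa using hp)).trans ?_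
    rw [eLpNorm_shift _ hDm, two_mul]
  calc _ ≤ (2 * eLpNorm D (ENNReal.ofReal p) volume) ^ p := ENNReal.rpow_le_rpow h2 hp0.le
    _ = _ := by
      rw [ENNReal.mul_rpow_of_nonneg _ _ hp0.le, ← ENNReal.ofReal_rpow_of_nonneg (by norm_num) hp0.le]
      norm_num

lemma Phi_le {p : ℝ} (hp : 1 ≤ p) {f : EuclideanSpace ℝ (Fin N) → ℂ} (hf : Measurable f)
    (h : EuclideanSpace ℝ (Fin N)) :
    Phi p f h ≤ (2 * eLpNorm f (ENNReal.ofReal p) volume) ^ p := by
  have hp0 : 0 < p := by linarith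
  rw [Phi_eq hp]
  refine ENNReal.rpow_le_rpow ?_ hp0.le
  have hm : Measurable (fun x => f (x + h)) := hf.comp (measurable_id.add_const h)
  refine (eLpNorm_sub_le hm.aestronglyMeasurable
      hf.aestronglyMeasurable (by simpa using hp)).trans ?_
  rw [eLpNorm_shift _ hf, two_mul]

lemma gagliardo_pow {p : ℝ} (hp : 1 ≤ p) (s : ℝ) {f : EuclideanSpace ℝ (Fin N) → ℂ}
    (hf : Measurable f) :
    gagliardo N p s f ^ p = ∫⁻ h, Phi p f h * wt N p s h := by
  have hp0 : 0 < p := by linarith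
  unfold gagliardo
  rw [← ENNReal.rpow_mul, one_div, inv_mul_cancel₀ hp0.ne', ENNReal.rpow_one]
  have h1 : ∀ x : EuclideanSpace ℝ (Fin N),
      ∫⁻ y, ENNReal.ofReal (‖f x - f y‖ ^ p / ‖x - y‖ ^ (N + s * p)) =
      ∫⁻ h, ENNReal.ofReal (‖f (x + h) - f x‖ ^ p) * wt N p s h := by
    intro x
    rw [← lintegral_add_left_eq_self _ x]
    refine lintegral_congr fun h => ?_
    unfold wt
    rw [← ENNReal.ofReal_mul (by positivity), Real.rpow_neg (norm_nonneg _), ← div_eq_mul_inv,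
      norm_sub_rev (f x), sub_add_cancel_left, norm_neg]
  simp only [h1]
  rw [lintegral_lintegral_swap]
  · refine lintegral_congr fun h => ?_
    unfold Phi
    rw [lintegral_mul_const]
    refine ENNReal.measurable_ofReal.comp (Measurable.pow_const (Measurable.norm ?_) _)
    exact (hf.comp (measurable_id.add_const h)).sub hf
  · refine Measurable.aemeasurable ?_
    refine Measurable.mul ?_ ((measurable_wt p s).comp measurable_snd)
    refine ENNReal.measurable_ofReal.comp (Measurable.pow_const (Measurable.norm ?_) _)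
    exact (hf.comp (measurable_fst.add measurable_snd)).sub (hf.comp measurable_fst)

lemma tail_finite {p θ : ℝ} (hp : 0 < p) (hθ : 0 < θ) :
    ∫⁻ h in {h : EuclideanSpace ℝ (Fin N) | 1 < ‖h‖}, wt N p θ h < ∞ := by
  have hr : (Module.finrank ℝ (EuclideanSpace ℝ (Fin N)) : ℝ) < N + θ * p := by
    rw [finrank_euclideanSpace, Fintype.card_fin]
    have := mul_pos hθ hp
    linarith
  have h1 := finite_integral_one_add_norm (μ := (volume : Measure (EuclideanSpace ℝ (Fin N)))) hr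
  have hms : MeasurableSet {h : EuclideanSpace ℝ (Fin N) | 1 < ‖h‖} :=
    measurableSet_lt measurable_const measurable_norm
  have h2 : ∫⁻ h in {h : EuclideanSpace ℝ (Fin N) | 1 < ‖h‖}, wt N p θ h ≤
      ENNReal.ofReal (2 ^ (N + θ * p)) * ∫⁻ x : EuclideanSpace ℝ (Fin N),
        ENNReal.ofReal ((1 + ‖x‖) ^ (-(N + θ * p))) := by
    rw [← lintegral_const_mul]
    · refine (setLIntegral_mono' hms (fun h hh => ?_)).trans (setLIntegral_le_lintegral _ _)
      unfold wt
      rw [← ENNReal.ofReal_mul (by positivity)]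
      refine ENNReal.ofReal_le_ofReal ?_
      have hh1 : 1 < ‖h‖ := hh
      have h0 : 0 ≤ N + θ * p := by positivity
      rw [Real.rpow_neg (by positivity), Real.rpow_neg (by positivity), ← div_eq_mul_inv,
        inv_eq_one_div, div_le_div_iff₀ (by positivity) (by positivity), one_mul,
        ← Real.mul_rpow (by norm_num) (norm_nonneg _)]
      refine Real.rpow_le_rpow (by positivity) (by linarith) h0
    · exact ENNReal.measurable_ofReal.comp ((measurable_const.add measurable_norm).pow_const _)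
  refine lt_of_le_of_lt h2 (ENNReal.mul_lt_top ENNReal.ofReal_lt_top h1)

lemma one_sub_le {p s : ℝ} (hp : 0 < p) (hs0 : 0 < s) (hs1 : s < 1) :
    1 - s ≤ (1 - (2 : ℝ) ^ (-p))⁻¹ * (1 - (2 : ℝ) ^ ((s - 1) * p)) := by
  have h2p : (2 : ℝ) ^ (-p) < 1 := Real.rpow_lt_one_of_one_lt_of_neg (by norm_num) (by linarith)
  have h := Real.geom_mean_le_arith_mean2_weighted (w₁ := s) (w₂ := 1 - s) (p₁ := 1)
    (p₂ := (2 : ℝ) ^ (-p)) hs0.le (by linarith) zero_le_one (by positivity) (by ring)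
  rw [Real.one_rpow, one_mul, ← Real.rpow_mul (by norm_num), mul_one] at h
  rw [show -p * (1 - s) = (s - 1) * p by ring] at h
  rw [inv_mul_eq_div, le_div_iff₀ (by linarith)]
  nlinarith

lemma one_sub_ge {p t : ℝ} :
    1 - (2 : ℝ) ^ ((t - 1) * p) ≤ Real.log 2 * p * (1 - t) := by
  rw [Real.rpow_def_of_pos (by norm_num)]
  have := Real.add_one_le_exp (Real.log 2 * ((t - 1) * p))
  linarith

lemma lintegral_split (F : EuclideanSpace ℝ (Fin N) → ℝ≥0∞) (hF0 : F 0 = 0) :
    ∫⁻ h, F h ≤ (∫⁻ h in {h | 0 < ‖h‖ ∧ ‖h‖ ≤ 1}, F h) + ∫⁻ h in {h | 1 < ‖h‖}, F h := by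
  have hms1 : MeasurableSet {h : EuclideanSpace ℝ (Fin N) | 0 < ‖h‖ ∧ ‖h‖ ≤ 1} :=
    (measurableSet_lt measurable_const measurable_norm).inter
      (measurableSet_le measurable_norm measurable_const)
  have hms2 : MeasurableSet {h : EuclideanSpace ℝ (Fin N) | 1 < ‖h‖} :=
    measurableSet_lt measurable_const measurable_norm
  have : ∫⁻ h, F h = ∫⁻ h in {h | 0 < ‖h‖ ∧ ‖h‖ ≤ 1} ∪ {h | 1 < ‖h‖}, F h := by
    rw [← lintegral_indicator (hms1.union hms2)]
    refine lintegral_congr fun h => ?_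
    by_cases hh : h = 0
    · rw [hh, hF0]
      simp
    · rw [Set.indicator_of_mem]
      rcases le_or_gt ‖h‖ 1 with h1 | h1
      · exact Or.inl ⟨norm_pos_iff.mpr hh, h1⟩
      · exact Or.inr h1
  rw [this]
  exact lintegral_union_le _ _ _

/-- **Q1 of MP_95ea62_an holds**, for every `p ∈ [1, ∞)` and every measurable function (in
particular for every Schwartz function). For all `N`, `p ≥ 1` and `θ ∈ (0, 1)` there is a constant
`C > 0` such that for all `θ < s < t < 1` and all measurable `f : ℝ^N → ℂ`,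
`min{s, 1-s}^{1/p} [f]_{s,p} ≤ C (‖f‖_p + min{t, 1-t}^{1/p} [f]_{t,p})`. -/
theorem result (N : ℕ) (p : ℝ) (hp : 1 ≤ p) (θ : ℝ) (hθ0 : 0 < θ) (hθ1 : θ < 1) :
    ∃ C : ℝ, 0 < C ∧ ∀ s t : ℝ, θ < s → s < t → t < 1 →
      ∀ f : EuclideanSpace ℝ (Fin N) → ℂ, Measurable f →
        ENNReal.ofReal (min s (1 - s)) ^ (1 / p) * gagliardo N p s f ≤
          ENNReal.ofReal C * (eLpNorm f (ENNReal.ofReal p) volume +
            ENNReal.ofReal (min t (1 - t)) ^ (1 / p) * gagliardo N p t f) := by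
  have hp0 : 0 < p := by linarith
  set K : ℝ≥0∞ := ∫⁻ h in {h : EuclideanSpace ℝ (Fin N) | 1 < ‖h‖}, wt N p θ h with hK
  have hKfin : K < ∞ := tail_finite hp0 hθ0
  have h2p : (2 : ℝ) ^ (-p) < 1 := Real.rpow_lt_one_of_one_lt_of_neg (by norm_num) (by linarith)
  have hlog : 0 < Real.log 2 := Real.log_pos (by norm_num)
  set K₁ : ℝ := (1 - (2 : ℝ) ^ (-p))⁻¹ * (Real.log 2 * p) * θ⁻¹ with hK₁
  have hK₁0 : 0 < K₁ := by
    have : 0 < 1 - (2 : ℝ) ^ (-p) := by linarith
    positivity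
  set C' : ℝ≥0∞ := ENNReal.ofReal K₁ ^ (1 / p) + 2 * K ^ (1 / p) with hC'
  have hC'fin : C' ≠ ∞ := by
    rw [hC']
    refine ENNReal.add_ne_top.mpr ⟨ENNReal.rpow_ne_top_of_nonneg (by positivity) ENNReal.ofReal_ne_top,
      ENNReal.mul_ne_top (by simp) (ENNReal.rpow_ne_top_of_nonneg (by positivity) hKfin.ne)⟩
  refine ⟨C'.toReal + 1, by positivity, ?_⟩
  intro s t hθs hst ht f hf
  have hCle : C' ≤ ENNReal.ofReal (C'.toReal + 1) := by
    calc C' = ENNReal.ofReal C'.toReal := (ENNReal.ofReal_toReal hC'fin).symm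
      _ ≤ _ := ENNReal.ofReal_le_ofReal (by linarith)
  have hs0 : 0 < s := hθ0.trans hθs
  have hs1 : s < 1 := hst.trans ht
  have hPhi0 : ∀ s' : ℝ, Phi p f 0 * wt N p s' 0 = 0 := by
    intro s'
    have : Phi p f 0 = 0 := by
      unfold Phi
      simp [Real.zero_rpow hp0.ne']
    rw [this, zero_mul]
  -- the main estimate for the `p`-th powers
  have hmain : ENNReal.ofReal (min s (1 - s)) * (gagliardo N p s f ^ p) ≤
      ENNReal.ofReal K₁ * (ENNReal.ofReal (min t (1 - t)) * gagliardo N p t f ^ p) +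
        K * (2 * eLpNorm f (ENNReal.ofReal p) volume) ^ p := by
    rw [gagliardo_pow hp s hf, gagliardo_pow hp t hf]
    have hball := ball_comparison (Phi p f) (measurable_Phi p hf) hp0 hst ht (Phi_two hp hf)
    have htail : ∫⁻ h in {h : EuclideanSpace ℝ (Fin N) | 1 < ‖h‖}, Phi p f h * wt N p s h ≤
        K * (2 * eLpNorm f (ENNReal.ofReal p) volume) ^ p := by
      rw [hK, ← lintegral_mul_const _ (measurable_wt p θ)]
      refine setLIntegral_mono' (measurableSet_lt measurable_const measurable_norm) fun h hh => ?_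
      rw [mul_comm]
      gcongr
      · unfold wt
        refine ENNReal.ofReal_le_ofReal ?_
        have hh1 : 1 < ‖h‖ := hh
        refine Real.rpow_le_rpow_of_exponent_le hh1.le ?_
        nlinarith
      · exact Phi_le hp hf h
    have hsplit := lintegral_split (fun h => Phi p f h * wt N p s h) (hPhi0 s)
    have hsub : (∫⁻ h in {h : EuclideanSpace ℝ (Fin N) | 0 < ‖h‖ ∧ ‖h‖ ≤ 1},
        Phi p f h * wt N p t h) ≤ ∫⁻ h, Phi p f h * wt N p t h := setLIntegral_le_lintegral _ _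
    have hm1 : ENNReal.ofReal (min s (1 - s)) ≤ 1 := by
      rw [ENNReal.ofReal_le_one]
      exact (min_le_left _ _).trans hs1.le
    have hqs : ENNReal.ofReal (min s (1 - s)) ≤ ENNReal.ofReal ((1 - (2 : ℝ) ^ (-p))⁻¹) *
        (1 - ENNReal.ofReal (2 ^ ((s - 1) * p))) := by
      rw [← ENNReal.ofReal_one, ← ENNReal.ofReal_sub _ (by positivity),
        ← ENNReal.ofReal_mul (by rw [inv_nonneg]; linarith)]
      exact ENNReal.ofReal_le_ofReal ((min_le_right _ _).trans (one_sub_le hp0 hs0 hs1))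
    have hqt : (1 - ENNReal.ofReal (2 ^ ((t - 1) * p))) ≤
        ENNReal.ofReal (Real.log 2 * p * θ⁻¹) * ENNReal.ofReal (min t (1 - t)) := by
      rw [← ENNReal.ofReal_one, ← ENNReal.ofReal_sub _ (by positivity),
        ← ENNReal.ofReal_mul (by positivity)]
      refine ENNReal.ofReal_le_ofReal (one_sub_ge.trans ?_)
      have h5 : 1 - t ≤ θ⁻¹ * min t (1 - t) := by
        rw [inv_mul_eq_div, le_div_iff₀ hθ0]
        refine le_min ?_ ?_
        · nlinarith
        · nlinarith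
      have h6 := mul_le_mul_of_nonneg_left h5 (by positivity : 0 ≤ Real.log 2 * p)
      linarith
    calc ENNReal.ofReal (min s (1 - s)) * ∫⁻ h, Phi p f h * wt N p s h
        ≤ ENNReal.ofReal (min s (1 - s)) *
          ((∫⁻ h in {h | 0 < ‖h‖ ∧ ‖h‖ ≤ 1}, Phi p f h * wt N p s h) +
            ∫⁻ h in {h | 1 < ‖h‖}, Phi p f h * wt N p s h) := by gcongr
      _ = ENNReal.ofReal (min s (1 - s)) *
          (∫⁻ h in {h | 0 < ‖h‖ ∧ ‖h‖ ≤ 1}, Phi p f h * wt N p s h) +
            ENNReal.ofReal (min s (1 - s)) * ∫⁻ h in {h | 1 < ‖h‖}, Phi p f h * wt N p s h :=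
          mul_add _ _ _
      _ ≤ ENNReal.ofReal ((1 - (2 : ℝ) ^ (-p))⁻¹) * (1 - ENNReal.ofReal (2 ^ ((s - 1) * p))) *
          (∫⁻ h in {h | 0 < ‖h‖ ∧ ‖h‖ ≤ 1}, Phi p f h * wt N p s h) +
            1 * (K * (2 * eLpNorm f (ENNReal.ofReal p) volume) ^ p) := by gcongr
      _ ≤ ENNReal.ofReal ((1 - (2 : ℝ) ^ (-p))⁻¹) * ((1 - ENNReal.ofReal (2 ^ ((t - 1) * p))) *
          (∫⁻ h in {h | 0 < ‖h‖ ∧ ‖h‖ ≤ 1}, Phi p f h * wt N p t h)) +
            1 * (K * (2 * eLpNorm f (ENNReal.ofReal p) volume) ^ p) := by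
          rw [mul_assoc]
          gcongr
      _ ≤ ENNReal.ofReal ((1 - (2 : ℝ) ^ (-p))⁻¹) * ((ENNReal.ofReal (Real.log 2 * p * θ⁻¹) *
          ENNReal.ofReal (min t (1 - t))) * ∫⁻ h, Phi p f h * wt N p t h) +
            1 * (K * (2 * eLpNorm f (ENNReal.ofReal p) volume) ^ p) := by gcongr
      _ = _ := by
          have hKK : ENNReal.ofReal K₁ = ENNReal.ofReal ((1 - (2 : ℝ) ^ (-p))⁻¹) *
              ENNReal.ofReal (Real.log 2 * p * θ⁻¹) := by
            have hnn : 0 ≤ (1 - (2 : ℝ) ^ (-p))⁻¹ := by rw [inv_nonneg]; linarith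
            rw [← ENNReal.ofReal_mul hnn, hK₁]
            congr 1
            ring
          rw [one_mul, hKK]
          ring
  have hpow := ENNReal.rpow_le_rpow hmain (by positivity : 0 ≤ 1 / p)
  have h1p : 1 / p ≤ 1 := by rw [div_le_one hp0]; exact hp
  have hpp : ∀ x : ℝ≥0∞, (x ^ p) ^ (1 / p) = x := fun x => by
    rw [← ENNReal.rpow_mul, mul_one_div_cancel hp0.ne', ENNReal.rpow_one]
  have hadd := ENNReal.rpow_add_le_add_rpow
    (ENNReal.ofReal K₁ * (ENNReal.ofReal (min t (1 - t)) * gagliardo N p t f ^ p))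
    (K * (2 * eLpNorm f (ENNReal.ofReal p) volume) ^ p) (by positivity : 0 ≤ 1 / p) h1p
  have hmul : ∀ x y : ℝ≥0∞, (x * y) ^ (1 / p) = x ^ (1 / p) * y ^ (1 / p) := fun x y =>
    ENNReal.mul_rpow_of_nonneg _ _ (by positivity)
  rw [hmul, hpp] at hpow
  rw [hmul (ENNReal.ofReal K₁), hmul (ENNReal.ofReal (min t (1 - t))), hmul K, hpp, hpp] at hadd
  refine hpow.trans (hadd.trans ?_)
  calc ENNReal.ofReal K₁ ^ (1 / p) * (ENNReal.ofReal (min t (1 - t)) ^ (1 / p) *
        gagliardo N p t f) + K ^ (1 / p) * (2 * eLpNorm f (ENNReal.ofReal p) volume)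
      = ENNReal.ofReal K₁ ^ (1 / p) * (ENNReal.ofReal (min t (1 - t)) ^ (1 / p) *
        gagliardo N p t f) + (2 * K ^ (1 / p)) * eLpNorm f (ENNReal.ofReal p) volume := by ring
    _ ≤ C' * (ENNReal.ofReal (min t (1 - t)) ^ (1 / p) * gagliardo N p t f) +
        C' * eLpNorm f (ENNReal.ofReal p) volume := by
        gcongr
        · exact le_self_add
        · exact le_add_self
    _ = C' * (eLpNorm f (ENNReal.ofReal p) volume +
          ENNReal.ofReal (min t (1 - t)) ^ (1 / p) * gagliardo N p t f) := by ring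
    _ ≤ _ := by gcongr

end main

end Pool.Agent.Results.MP_95ea62_an.UniformComparison
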